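import Pool.Agent.Q2.EM.GTr
import Pool.Agent.Q2.EM.Ut

/-!
MP_19ffc6_ag: resolution of the quotients by finite groups whose effective models act freely on a
weighted blowup; in particular by all finite subgroups of graded unipotent groups.
-/

set_option autoImplicit false

open AlgebraicGeometry CategoryTheory MvPolynomial Pool.Agent.H920R2 Pool.Agent.H519R3.RS
open Pool.Agent.Q2.EM

universe u

namespace Pool.Agent.Results.MP_19ffc6_ag.EffectiveModels

section

variable {k B : Type u} [Field k] [CommRing B] [Algebra k B]

/-- The structure morphism of the spectrum of a subalgebra. -/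
noncomputable def str (C : Subalgebra k B) :
    Spec (CommRingCat.of C) ⟶ Spec (CommRingCat.of k) :=
  Spec.map (CommRingCat.ofHom (algebraMap k C))

/-- The spectrum of the subalgebra `C` is a variety and has a resolution of singularities: there
are an integral scheme `Y`, smooth over `k`, and a proper morphism from `Y` to the spectrum which
is an isomorphism over a dense open subset. -/
def IsResolvable (C : Subalgebra k B) : Prop :=
  IsVariety (str C) ∧
  ∃ (Y : Scheme.{u}) (π : Y ⟶ Spec (CommRingCat.of C)),
    AlgebraicGeometry.IsIntegral Y ∧ AlgebraicGeometry.IsProper π ∧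
    AlgebraicGeometry.Smooth (π ≫ str C) ∧
    ∃ U : (Spec (CommRingCat.of C)).Opens, Dense (U : Set (Spec (CommRingCat.of C))) ∧
      IsIso (π ∣_ U)

/-- The ring of invariants of a group of automorphisms. -/
noncomputable def invariants {Γ : Type} [Group Γ] (ρ : Γ →* (B ≃ₐ[k] B)) : Subalgebra k B where
  carrier := {b | ∀ g, ρ g b = b}
  mul_mem' := fun hx hy g => by rw [map_mul, hx g, hy g]
  add_mem' := fun hx hy g => by rw [map_add, hx g, hy g]
  algebraMap_mem' := fun c g => AlgEquiv.commutes _ c

end

section

variable {k : Type u} [Field k] {n q : ℕ} {ι : Type}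

/-- The endomorphism of the coordinate ring of the product of affine `n`-space, with the coordinates
`X (inl i)`, and of `q` copies of the group with the multiplication polynomials `μ`, with the
coordinates `X (inr (t, j))` of the `t`-th copy, for the point `a` of the group:
`(x; y 1, …, y q) ↦ (x; λ_{v 1 (x)} (a) * y 1, …, λ_{v q (x)} (a) * y q)`, where `*` is the
multiplication of the group and `λ_s (a)` has the coordinates `s ^ (m j) * a j`. -/
noncomputable def action (m : ι → ℕ) (μ : ι → MvPolynomial (ι ⊕ ι) k)
    (v : Fin q → MvPolynomial (Fin n) k) (a : ι → k) :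
    MvPolynomial (Fin n ⊕ Fin q × ι) k →ₐ[k] MvPolynomial (Fin n ⊕ Fin q × ι) k :=
  aeval (Sum.elim (fun i => X (Sum.inl i)) fun t =>
    mulPt μ (fun j => rename Sum.inl (v t.1) ^ m j * C (a j)) (fun j => X (Sum.inr (t.1, j))) t.2)

/-- The polynomials which are invariant under the points `x g` of the group, for `g ∈ Γ`. -/
noncomputable def invariantPolynomials {Γ : Type} (m : ι → ℕ) (μ : ι → MvPolynomial (ι ⊕ ι) k)
    (v : Fin q → MvPolynomial (Fin n) k) (x : Γ → ι → k) :
    Subalgebra k (MvPolynomial (Fin n ⊕ Fin q × ι) k) where
  carrier := {b | ∀ g, action m μ v (x g) b = b}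
  mul_mem' := fun hx hy g => by rw [map_mul, hx g, hy g]
  add_mem' := fun hx hy g => by rw [map_add, hx g, hy g]
  algebraMap_mem' := fun c g => AlgHom.commutes _ c

end

lemma resolvable {k B : Type u} [Field k] [CommRing B] [IsDomain B] [Algebra k B]
    {F : ℕ → Ideal B} (hF : IsFilt F) {C C' : Subalgebra k B} (h : C' = C)
    (hG : Good k (isFilt_restr hF C)) (hne : restr F C 1 ≠ ⊥) : IsResolvable C' := by
  subst h
  exact concl hF hG hne

/-- Let `k` be a field of characteristic `p`.

(1) Let `B` be a domain over `k` and `F` a multiplicative filtration of `B` by ideals, `F 1 ≠ 0`,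
whose weighted blowup is smooth (`Good`), or let `B` be smooth and `F` a regular weighted centre.
Let the finite group `Γ` act on `B`, and let `W 0 = k ⊆ W 1 ⊆ ...` be a weight filtration of the
algebra of the functions `Γ → k` (`IsWeight`: multiplicative, exhaustive and compatible with the
comultiplication), such that the action is filtered (`IsFiltered`: for `b ∈ F d`, the map
`g ↦ g b` is a sum of products of functions in `W i` and of elements of `F (d + i)`). In other
words, the closure of `Γ` with respect to `W`, a finite flat group scheme over the line, acts on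
the extended Rees algebra of `F`. Let `D` be the smallest number such that the summation over `Γ`
does not vanish on `W D`. Suppose that the normalized traces have no common zeros outside the vertex
(i.e. this group scheme acts freely there): if `b ∈ F d`, `d > 0`, then some power `b ^ N` belongs to
the ideal which is generated by the products `c * ∑ g, g θ` for `θ ∈ F e` and `c ∈ F (N d - e - D)`,
where `F i = B` for `i < 0` (`traceIdeal`). Then the spectrum of the ring of invariants of `Γ` is a
variety and has a resolution of singularities.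

(2) Let `U` be a unipotent group over `k` with a positive grading: affine space with the
multiplication given by polynomials `μ j` such that `μ j` is homogeneous of degree `m j` when the
`i`-th coordinates of both factors have the weights `m i > 0`. Let the coordinates of affine
`n`-space have weights `w i ≥ 0`, not all `0`, and let `v 1, …, v q` be polynomials in them which
are weighted homogeneous of the same degree `l > 0` and have no common zeros (with coordinates in
any field) outside the subspace where the coordinates of positive weight vanish. Then for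
every finite subgroup `Γ` of `U(k)` the quotient of `𝔸^n × U^q` by `Γ`, where `a ∈ Γ` acts by
`(x; y 1, …, y q) ↦ (x; λ_{v 1 (x)} (a) * y 1, …, λ_{v q (x)} (a) * y q)`, is a variety and has a
resolution of singularities.

(3) The group of unitriangular matrices of any size, with the weight `j - i` of the entry `(i, j)`,
is such a graded unipotent group, and every finite `p`-group is isomorphic to a subgroup of its group
of `k`-points for some size. -/
theorem result (p : ℕ) [Fact p.Prime] (k : Type u) [Field k] [CharP k p] :
    (∀ (B : Type u) [CommRing B] [IsDomain B] [Algebra k B] (F : ℕ → Ideal B) (hF : IsFilt F)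
      (_ : F 1 ≠ ⊥) (_ : Good k hF ∨ (Algebra.Smooth k B ∧ RegularWeightedCentre k F))
      (Γ : Type) [Group Γ] [Fintype Γ] (ρ : Γ →* (B ≃ₐ[k] B))
      (W : ℕ → Submodule k (Γ → k)) (_ : IsWeight k W) (_ : IsFiltered W F ρ)
      (D : ℕ) (_ : ∃ f ∈ W D, ∑ g : Γ, f g ≠ 0) (_ : ∀ d < D, ∀ f ∈ W d, ∑ g : Γ, f g = 0)
      (_ : ∀ d, 1 ≤ d → ∀ b ∈ F d, ∃ N : ℕ, b ^ N ∈ traceIdeal F ρ D (N * d)),
      IsResolvable (invariants ρ)) ∧
    (∀ (ι : Type) [Finite ι] (m : ι → ℕ) (μ : ι → MvPolynomial (ι ⊕ ι) k)
      (_ : IsGradedGroupLaw m μ) (n q : ℕ) (w : Fin n → ℕ) (_ : ∃ i, 0 < w i) (l : ℕ) (_ : 0 < l)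
      (v : Fin q → MvPolynomial (Fin n) k) (_ : ∀ a, IsWeightedHomogeneous w (v a) l)
      (_ : ∀ (K : Type u) [Field K] [Algebra k K] (z : Fin n → K), (∃ i, 0 < w i ∧ z i ≠ 0) →
        ∃ a, aeval z (v a) ≠ 0)
      (Γ : Type) [Group Γ] [Finite Γ] (x : Γ → ι → k) (_ : IsHom μ x)
      (_ : Function.Injective x), IsResolvable (invariantPolynomials m μ v x)) ∧
    (∀ N, IsGradedGroupLaw (uwt N) (ulaw k N)) ∧
    ∀ (Γ : Type) [Group Γ] [Finite Γ], IsPGroup p Γ → ∃ (N : ℕ) (x : Γ → Up N → k),
      IsHom (ulaw k N) x ∧ Function.Injective x := by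
  refine ⟨?_, ?_, fun N => isGradedGroupLaw_ulaw k N, fun Γ _ _ hΓ => exists_hom p hΓ⟩
  · intro B _ _ _ F hF hne hG Γ _ _ ρ W hW hA D hD1 hD hT
    have hG' : Good k hF := by
      rcases hG with h | ⟨h1, h2⟩
      · exact h
      · exact good_of_centre hF h2
    have heq : invariants ρ = Q17.Res.gi ρ ⊤ := by
      ext b
      exact ⟨fun h g _ => h g, fun h g => h g trivial⟩
    exact resolvable hF heq (good_sub ρ hF hW hA hD hD1 p hT hG' hne ⊤) (ne_bot ρ hF hA hne)
  · intro ι _ m μ hμ n q w hw l hl v hv hV Γ _ _ x hx hinj
    have := Fintype.ofFinite Γ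
    obtain ⟨h1, h2⟩ := good_graded v hμ hx p hinj w hw l hl hv hV
    have heq : invariantPolynomials m μ v x = Q17.Res.gi (grho v hμ hx) ⊤ := by
      ext b
      constructor
      · intro h g _
        exact h g⁻¹
      · intro h g
        have h3 := h g⁻¹ trivial
        rw [grho_apply, inv_inv] at h3
        exact h3
    exact resolvable (Pool.Agent.H519R3.RE.isFilt_EI _ w) heq h1 h2

end Pool.Agent.Results.MP_19ffc6_ag.EffectiveModels
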