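import Pool.Agent.Q40.RS.Aff

/-!
MP_19ffc6_ag: resolution of singularities of the quotients of smooth schemes `X` over a surface `S`
(of any relative dimension) by relative foliations whose degeneracy locus is the preimage of a
closed subscheme of `S`; for example the quotients of affine space of dimension `2 + s` by
arbitrary families of vector fields `∑ j, f_j (x_1, x_2) * ∂/∂y_j`, whose coefficients are arbitrary
polynomials in two variables.

The proof: (1) the surface `S` (singular or not) is modified, by log resolution on surfaces and
toroidal blowups (starting library), until finitely many generators of the ideal `I` are pairwise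
comparable, so that `I` becomes invertible; (2) `X ×_S S'` is smooth, integral and a modification of
`X`; (3) where `I` is generated by `f`, Cramer's rule gives a basis of the foliation by commuting
vector fields `D_i` with `D_i ^ p = 0` and `D_i c_j = δ_ij`, which are regular, because the
determinants are divisible by `f`; (4) so the quotient of `X ×_S S'` by the saturated foliation is
smooth, and it is a modification of the quotient of `X`.

helper40; built on the library of the starting files (W558, W418, H920R2).
-/

set_option autoImplicit false

open AlgebraicGeometry CategoryTheory Pool.Agent.H920R2 Pool.Agent.W558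

universe u

namespace Pool.Agent.Results.MP_19ffc6_ag.RelativeFoliations

section defs

variable {k : Type u} [Field k]

/-- A foliation of height one: an `L`-linear subspace of the space of derivations of the field `L`
over `k` which is closed under the brackets `[X, Y] = X Y - Y X` and under the `p`-th powers. -/
structure IsFoliation {L : Type u} [Field L] [Algebra k L] (p : ℕ)
    (F : Submodule L (Derivation k L L)) : Prop where
  bracket : ∀ X ∈ F, ∀ Y ∈ F, ⁅X, Y⁆ ∈ F
  power : ∀ X ∈ F, ∃ Y ∈ F, ∀ x, X^[p] x = Y x

variable {B : Type u} [CommRing B] [IsDomain B] [Algebra k B] {r : ℕ}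

/-- The rational vector field `D` on `X = Spec B` is a regular relative vector field of
`X → S = Spec R`: it maps `B` to `B` and vanishes on `R`. -/
structure IsRelative (R : Type u) [CommRing R] [Algebra R B]
    (D : Derivation k (FractionRing B) (FractionRing B)) : Prop where
  regular : ∀ b : B, ∃ b' : B, D (algebraMap B (FractionRing B) b) =
    algebraMap B (FractionRing B) b'
  relative : ∀ a : R, D (algebraMap B (FractionRing B) (algebraMap R B a)) = 0

/-- The degeneracy ideal of the vector fields `D_1, ..., D_r`, generated by the determinants of the
matrices `(D_i c_j)` for `c_1, ..., c_r ∈ B`. -/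
noncomputable def degeneracyIdeal
    (D : Fin r → Derivation k (FractionRing B) (FractionRing B)) : Ideal B :=
  Ideal.span {b | ∃ c : Fin r → B, algebraMap B (FractionRing B) b =
    (Matrix.of fun i j => D i (algebraMap B (FractionRing B) (c j))).det}

/-- The coordinate ring of the quotient of `Spec B` by the foliation spanned by the vector fields:
the algebra of common constants. -/
def constants (D : Fin r → Derivation k (FractionRing B) (FractionRing B)) : Subalgebra k B where
  carrier := {b | ∀ i, D i (algebraMap B (FractionRing B) b) = 0}
  mul_mem' := by
    intro x y hx hy i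
    rw [map_mul, Derivation.leibniz, hx i, hy i, smul_zero, smul_zero, add_zero]
  add_mem' := by
    intro x y hx hy i
    rw [map_add, map_add, hx i, hy i, add_zero]
  algebraMap_mem' := fun c i => by
    rw [← IsScalarTower.algebraMap_apply, Derivation.map_algebraMap]

/-- The vector field `∑ j, f_j * ∂/∂y_j` on `S × 𝔸 ^ s`, where `S = Spec R` and the `f_j` are
functions on `S`. -/
noncomputable def field (k : Type u) [Field k] {R : Type u} [CommRing R] [Algebra k R] {s : ℕ}
    (f : Fin s → R) : Derivation k (MvPolynomial (Fin s) R) (MvPolynomial (Fin s) R) :=
  (MvPolynomial.mkDerivation R fun j => MvPolynomial.C (f j)).restrictScalars k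

/-- The algebra of common constants of the vector fields given by the rows of a matrix. -/
def constants' (k : Type u) [Field k] {R : Type u} [CommRing R] [Algebra k R] {s r : ℕ}
    (f : Fin r → Fin s → R) : Subalgebra k (MvPolynomial (Fin s) R) where
  carrier := {b | ∀ i, field k (f i) b = 0}
  mul_mem' := by
    intro x y hx hy i
    rw [Derivation.leibniz, hx i, hy i, smul_zero, smul_zero, add_zero]
  add_mem' := by
    intro x y hx hy i
    rw [map_add, hx i, hy i, add_zero]
  algebraMap_mem' := fun c i => (field k (f i)).map_algebraMap c

end defs

/-- Let `k` be a perfect field of characteristic `p`.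

(1) Let `S = Spec R` be a variety over `k`: an affine surface, whose function field is the function
field of a smooth projective surface (this is always the case), or of any dimension, such that its
function field has log smooth projective models (`HasLogModels`). Let `X = Spec B` be an integral
scheme which is smooth over `S`, of any relative dimension, `D_1, ..., D_r` relative vector fields
on `X` over `S`, which span a foliation: their span over the function field of `X` is closed under
brackets and `p`-th powers. Suppose that the degeneracy ideal of the `D_i` is generated by an ideal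
`I ≠ 0` of `R`. Then the quotient of `X` by the foliation is a variety and has a resolution of
singularities.

(2) For every `r × s`-matrix `f` of rank `r` of polynomials in two variables `x_1, x_2` over `k` the
quotient of affine space of dimension `2 + s`, with the coordinates `x_1, x_2, y_1, ..., y_s`, by the
vector fields `∑ j, f i j * ∂/∂y_j` is a variety and has a resolution of singularities. -/
theorem result (p : ℕ) [Fact p.Prime] (k : Type u) [Field k] [CharP k p] [PerfectField k] :
    (∀ (R : Type u) [CommRing R] [IsDomain R] [Algebra k R] [Algebra.FiniteType k R],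
      ((Algebra.trdeg k (FractionRing R) = 2 ∧ HasModel k (FractionRing R)) ∨
        HasLogModels k (FractionRing R)) →
      ∀ (B : Type u) [CommRing B] [IsDomain B] [Algebra k B] [Algebra R B] [IsScalarTower k R B]
        [Algebra.Smooth R B] (r : ℕ)
        (D : Fin r → Derivation k (FractionRing B) (FractionRing B)),
      (∀ i, IsRelative R (D i)) → IsFoliation p (Submodule.span (FractionRing B) (Set.range D)) →
      ∀ I : Ideal R, I ≠ ⊥ → degeneracyIdeal D = I.map (algebraMap R B) →
      IsVariety (X := Spec (CommRingCat.of (constants D)))
        (Spec.map (CommRingCat.ofHom (algebraMap k (constants D)))) ∧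
      HasResolution (X := Spec (CommRingCat.of (constants D)))
        (Spec.map (CommRingCat.ofHom (algebraMap k (constants D))))) ∧
    (∀ (r s : ℕ) (f : Fin r → Fin s → MvPolynomial (Fin 2) k),
      (∃ c : Fin r → Fin s, (Matrix.of fun i j => f i (c j)).det ≠ 0) →
      IsVariety (X := Spec (CommRingCat.of (constants' k f)))
        (Spec.map (CommRingCat.ofHom (algebraMap k (constants' k f)))) ∧
      HasResolution (X := Spec (CommRingCat.of (constants' k f)))
        (Spec.map (CommRingCat.ofHom (algebraMap k (constants' k f))))) := by
  have hp : p.Prime := Fact.out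
  have hpk : (p : k) = 0 := CharP.cast_eq_zero k p
  have part1 : ∀ (R : Type u) [CommRing R] [IsDomain R] [Algebra k R] [Algebra.FiniteType k R],
      ((Algebra.trdeg k (FractionRing R) = 2 ∧ HasModel k (FractionRing R)) ∨
        HasLogModels k (FractionRing R)) →
      ∀ (B : Type u) [CommRing B] [IsDomain B] [Algebra k B] [Algebra R B] [IsScalarTower k R B]
        [Algebra.Smooth R B] (r : ℕ)
        (D : Fin r → Derivation k (FractionRing B) (FractionRing B)),
      (∀ i, IsRelative R (D i)) → IsFoliation p (Submodule.span (FractionRing B) (Set.range D)) →
      ∀ I : Ideal R, I ≠ ⊥ → degeneracyIdeal D = I.map (algebraMap R B) →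
      IsVariety (X := Spec (CommRingCat.of (constants D)))
        (Spec.map (CommRingCat.ofHom (algebraMap k (constants D)))) ∧
      HasResolution (X := Spec (CommRingCat.of (constants D)))
        (Spec.map (CommRingCat.ofHom (algebraMap k (constants D)))) := by
    intro R _ _ _ _ hE B _ _ _ _ _ _ r D hD hF I hI0 hI
    have hE' : Pool.Agent.W418.LCI.HasLM k (FractionRing R) := by
      rcases hE with ⟨h2, hE⟩ | hE
      · exact Pool.Agent.W418.LCI.hasLM_of_surface k _ h2 hE
      · exact Pool.Agent.W418.LCI.hasLM_of_models k _ hE
    have hRB : Function.Injective (algebraMap R B) := by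
      have h1 : Module.Flat R B := inferInstance
      exact FaithfulSMul.algebraMap_injective R B
    have hBL : Function.Injective (algebraMap B (FractionRing B)) :=
      IsFractionRing.injective B (FractionRing B)
    have hf : FaithfulSMul R (FractionRing B) := by
      rw [faithfulSMul_iff_algebraMap_injective, IsScalarTower.algebraMap_eq R B (FractionRing B)]
      exact hBL.comp hRB
    let _ : Algebra (FractionRing R) (FractionRing B) := FractionRing.liftAlgebra R (FractionRing B)
    have t1 : IsScalarTower R (FractionRing R) (FractionRing B) :=
      FractionRing.isScalarTower_liftAlgebra R (FractionRing B)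
    have t2 : IsScalarTower k (FractionRing R) (FractionRing B) := by
      refine IsScalarTower.of_algebraMap_eq fun x => ?_
      rw [IsScalarTower.algebraMap_apply k R (FractionRing R),
        ← IsScalarTower.algebraMap_apply R (FractionRing R) (FractionRing B),
        IsScalarTower.algebraMap_apply R B (FractionRing B),
        ← IsScalarTower.algebraMap_apply k R B, ← IsScalarTower.algebraMap_apply k B]
    have hDR : ∀ i (a : R), D i (algebraMap R (FractionRing B) a) = 0 := by
      intro i a
      rw [IsScalarTower.algebraMap_apply R B (FractionRing B)]
      exact (hD i).relative a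
    have hDE : ∀ i (x : FractionRing R), D i (algebraMap (FractionRing R) (FractionRing B) x) =
        0 := by
      intro i x
      obtain ⟨a, b, hb, rfl⟩ := IsFractionRing.div_surjective (A := R) x
      rw [map_div₀, ← IsScalarTower.algebraMap_apply R (FractionRing R) (FractionRing B),
        ← IsScalarTower.algebraMap_apply R (FractionRing R) (FractionRing B),
        Derivation.leibniz_div, hDR, hDR]
      simp
    choose d hd using fun i => (hD i).regular
    let δ : (Fin r → B) → B := fun c => (Matrix.of fun i j => d i (c j)).det
    have hδ : ∀ c, algebraMap B (FractionRing B) (δ c) =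
        Pool.Agent.Q40.RS.dd D (fun i => algebraMap B (FractionRing B) (c i)) := by
      intro c
      change algebraMap B (FractionRing B) ((Matrix.of fun i j => d i (c j)).det) = _
      rw [Pool.Agent.Q40.RS.dd, RingHom.map_det]
      congr 1
      ext i j
      rw [RingHom.mapMatrix_apply, Matrix.map_apply, Matrix.of_apply, Matrix.of_apply, hd]
    have hI' : Ideal.span (Set.range δ) = I.map (algebraMap R B) := by
      rw [← hI, degeneracyIdeal]
      congr 1
      ext b
      constructor
      · rintro ⟨c, rfl⟩
        exact ⟨c, hδ c⟩
      · rintro ⟨c, hc⟩
        refine ⟨c, hBL ?_⟩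
        rw [hc, hδ]
        rfl
    have hftB : Algebra.FiniteType k B := Algebra.FiniteType.trans (S := R) inferInstance
      inferInstance
    have heq : constants D = Pool.Agent.Q40.RS.cB B D := rfl
    rw [heq]
    have hft := Pool.Agent.Q40.RS.finiteType_cB (B := B) hp hpk D
    exact ⟨isVariety_spec, Pool.Agent.Q40.RS.main (E := FractionRing R) hp hpk hE' hBL D hDE
      (fun i b => (hD i).regular b) ⟨hF.bracket, hF.power⟩ δ hδ I hI0 hI'⟩
  refine ⟨part1, ?_⟩
  intro r s f hdet
  obtain ⟨c0, hc0⟩ := hdet
  choose D hD using fun i => exists_der_frac (field k (f i))
  have hsm : Algebra.Smooth (MvPolynomial (Fin 2) k)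
      (MvPolynomial (Fin s) (MvPolynomial (Fin 2) k)) := ⟨inferInstance, inferInstance⟩
  have h1 := part1 (MvPolynomial (Fin 2) k) (Or.inl ⟨trdeg_RF2 k, hasModel_RF2 k⟩)
    (MvPolynomial (Fin s) (MvPolynomial (Fin 2) k)) r D ?_ ?_
    (Ideal.span (Set.range (Pool.Agent.Q40.RS.mi f))) ?_ ?_
  · have heq : constants D = constants' k f := by
      ext b
      constructor
      · intro h i
        have h2 := h i
        rw [hD] at h2
        exact IsFractionRing.injective _ (FractionRing
          (MvPolynomial (Fin s) (MvPolynomial (Fin 2) k))) (by rw [h2, map_zero])
      · intro h i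
        rw [hD, h i, map_zero]
    rw [← heq]
    exact h1
  · intro i
    refine ⟨fun b => ⟨_, hD i b⟩, fun a => ?_⟩
    rw [hD]
    have h2 : field k (f i) (algebraMap (MvPolynomial (Fin 2) k)
        (MvPolynomial (Fin s) (MvPolynomial (Fin 2) k)) a) = 0 :=
      Pool.Agent.Q40.RS.fld_C (f i) a
    rw [h2, map_zero]
  · have h2 := Pool.Agent.Q40.RS.isRLie_of_sat hp hpk _ _
      (Pool.Agent.Q40.RS.sat_of_minor D f hD c0 hc0)
    exact ⟨h2.lie, h2.pow⟩
  · intro h
    apply hc0
    have h2 : Pool.Agent.Q40.RS.mi f c0 ∈ Ideal.span (Set.range (Pool.Agent.Q40.RS.mi f)) :=
      Ideal.subset_span ⟨c0, rfl⟩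
    rw [h] at h2
    exact h2
  · rw [← Pool.Agent.Q40.RS.span_dl (k := k), degeneracyIdeal]
    congr 1
    ext b
    constructor
    · rintro ⟨c, hc⟩
      refine ⟨c, IsFractionRing.injective _ (FractionRing
          (MvPolynomial (Fin s) (MvPolynomial (Fin 2) k))) ?_⟩
      rw [hc]
      exact Pool.Agent.Q40.RS.dd_eq D f hD c
    · rintro ⟨c, rfl⟩
      exact ⟨c, Pool.Agent.Q40.RS.dd_eq D f hD c⟩

end Pool.Agent.Results.MP_19ffc6_ag.RelativeFoliations
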