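import Pool.Agent.Q17.Res.Aff

/-!
MP_19ffc6_ag: resolution of the quotients of smooth affine varieties of characteristic `p` by
finite subgroups of the additive group of the base field whose elements act by the values of one
weighted family of polynomials.
-/

set_option autoImplicit false

open AlgebraicGeometry CategoryTheory MvPolynomial Pool.Agent.H920R2 Pool.Agent.H519R3.RS

universe u

namespace Pool.Agent.Results.MP_19ffc6_ag.ScalarGroupActions

section

variable {k B : Type u} [Field k] [CommRing B] [Algebra k B]

/-- The structure morphism of the spectrum of a subalgebra. -/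
noncomputable def str (C : Subalgebra k B) :
    Spec (CommRingCat.of C) ⟶ Spec (CommRingCat.of k) :=
  Spec.map (CommRingCat.ofHom (algebraMap k C))

/-- The spectrum of the subalgebra `C` is a variety and has a resolution of singularities: there
are an integral scheme `Y`, smooth over `k`, and a proper morphism from `Y` to the spectrum which
is an isomorphism over a dense open subset. -/
def IsResolvable (C : Subalgebra k B) : Prop :=
  IsVariety (str C) ∧
  ∃ (Y : Scheme.{u}) (π : Y ⟶ Spec (CommRingCat.of C)),
    AlgebraicGeometry.IsIntegral Y ∧ AlgebraicGeometry.IsProper π ∧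
    AlgebraicGeometry.Smooth (π ≫ str C) ∧
    ∃ U : (Spec (CommRingCat.of C)).Opens, Dense (U : Set (Spec (CommRingCat.of C))) ∧
      IsIso (π ∣_ U)

/-- The endomorphisms `σ a`, `a ∈ A`, form an action of the group `A`. -/
structure IsAction {A : AddSubgroup k} (σ : A → (B →ₐ[k] B)) : Prop where
  zero : ∀ x, σ 0 x = x
  add : ∀ a b x, σ a (σ b x) = σ (a + b) x

/-- The ring of invariants. -/
noncomputable def invariants {A : AddSubgroup k} (σ : A → (B →ₐ[k] B)) : Subalgebra k B where
  carrier := {b | ∀ a, σ a b = b}
  mul_mem' := fun hx hy g => by rw [map_mul, hx g, hy g]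
  add_mem' := fun hx hy g => by rw [map_add, hx g, hy g]
  algebraMap_mem' := fun c g => AlgHom.commutes _ c

/-- The elements which are, up to higher order, combinations of leading forms of the differences
`σ c - c`: the ideal generated by `F (m + 1)` and the products `b * (σ c - c)` with `c` of weight
`e` and `b` of weight `m - (e + l)`. -/
def leading (σ : B →ₐ[k] B) (F : ℕ → Ideal B) (l m : ℕ) : Ideal B :=
  F (m + 1) ⊔ Ideal.span {y | ∃ e, ∃ c ∈ F e, ∃ b ∈ F (m - (e + l)), y = b * (σ c - c)}

end

/-- The ideal of the polynomials all of whose monomials have weight at least `d`. -/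
noncomputable def weightIdeal {k : Type u} [Field k] {n : ℕ} (w : Fin n → ℕ) (d : ℕ) :
    Ideal (MvPolynomial (Fin n) k) :=
  Ideal.span {y | ∃ α : Fin n → ℕ, d ≤ ∑ i, α i * w i ∧ y = ∏ i, X i ^ α i}

lemma resolvable {k B : Type u} [Field k] [CommRing B] [IsDomain B] [Algebra k B]
    {F : ℕ → Ideal B} (hF : IsFilt F) {C : Subalgebra k B} (hG : Good k (isFilt_restr hF C))
    (hne : restr F C 1 ≠ ⊥) : IsResolvable C := concl hF hG hne

/-- Let `k` be a field of characteristic `p` and `A` a nontrivial finite subgroup of the additive
group of `k` (so `A` is an elementary abelian `p`-group of arbitrary rank).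

(1) Let `B` be a domain over `k` and `F` a decreasing multiplicative filtration of `B` by ideals
with `F 1 ≠ 0` such that either `B` is smooth and `F` is a regular weighted centre, or (`Good`;
here `B` may be singular) the weighted blowup of `F` is smooth. Let `A` act on `B` such that, for
some `l > 0`,

* for every `b` of weight `d` there is a polynomial `P` whose `j`-th coefficient has weight at
  least `d + j l`, with `σ a b = P (a)` for all `a ∈ A`,
* the fixed points of the nonzero elements of `A` lie in the centre,
* for one nonzero `a ∈ A` the leading form of `σ a - 1` has no zeros on the weighted normal cone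
  outside of its vertex.

Then the quotient of `Spec B` by `A` is a variety and has a resolution of singularities.

(2) Let `A` act on affine `n`-space by `x_i ↦ f_i (a)`, where the `f_i` are polynomials in `a` with
coefficients in `k[x_1, ..., x_n]`, let the coordinates have weights `w i ≥ 0`, not all zero, and
`l > 0`, such that all monomials of the `j`-th coefficient of `f_i` have weight `≥ w i + j l`. Let
`g_i` be weighted homogeneous of weight `w i + l` such that the first coefficient of `f_i` is
equal to `g_i` up to monomials of larger weight. If the common zeros of the `g_i` and the fixed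
points of the nonzero elements of `A` (in any field) lie in the subspace where the coordinates of
positive weight vanish, then the quotient of affine `n`-space by `A` is a variety and has a
resolution of singularities. (The polynomials `f_i` need not define an action of the additive
group.) -/
theorem result (p : ℕ) [Fact p.Prime] (k : Type u) [Field k] [CharP k p] (A : AddSubgroup k)
    [Finite A] (hA : A ≠ ⊥) (l : ℕ) (hl : 0 < l) :
    (∀ (B : Type u) [CommRing B] [IsDomain B] [Algebra k B] (F : ℕ → Ideal B) (hF : IsFilt F),
      F 1 ≠ ⊥ → (Good k hF ∨ (Algebra.Smooth k B ∧ RegularWeightedCentre k F)) →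
      ∀ (σ : A → (B →ₐ[k] B)), IsAction σ →
      (∀ d, ∀ b ∈ F d, ∃ P : Polynomial B, (∀ j, P.coeff j ∈ F (d + j * l)) ∧
        ∀ a : A, σ a b = P.eval (algebraMap k B a)) →
      (∀ a : A, a ≠ 0 → ∀ P : Ideal B, P.IsPrime → (∀ b, σ a b - b ∈ P) → F 1 ≤ P) →
      (∃ a : A, a ≠ 0 ∧ ∀ d, 1 ≤ d → ∀ b ∈ F d, ∃ N : ℕ, b ^ N ∈ leading (σ a) F l (N * d)) →
      IsResolvable (invariants σ)) ∧
    ∀ (n : ℕ) (w : Fin n → ℕ), (∃ i, 0 < w i) →
      ∀ (σ : A → (MvPolynomial (Fin n) k →ₐ[k] MvPolynomial (Fin n) k)), IsAction σ →
      ∀ (f : Fin n → Polynomial (MvPolynomial (Fin n) k)),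
      (∀ a i, σ a (X i) = (f i).eval (C (a : k))) →
      (∀ i j, (f i).coeff j ∈ weightIdeal w (w i + j * l)) →
      ∀ (g : Fin n → MvPolynomial (Fin n) k), (∀ i, IsWeightedHomogeneous w (g i) (w i + l)) →
      (∀ i, (f i).coeff 1 - g i ∈ weightIdeal w (w i + l + 1)) →
      (∀ (K : Type u) [Field K] [Algebra k K] (z : Fin n → K),
        (∀ i, aeval z (g i) = 0) → ∀ i, 0 < w i → z i = 0) →
      (∀ a : A, a ≠ 0 → ∀ (K : Type u) [Field K] [Algebra k K] (z : Fin n → K),
        (∀ i, aeval z (σ a (X i)) = z i) → ∀ i, 0 < w i → z i = 0) →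
      IsResolvable (invariants σ) := by
  have hp : p.Prime := Fact.out
  have hpk : (p : k) = 0 := CharP.cast_eq_zero k p
  constructor
  · intro B _ _ _ F hF hne hG σ hσ hpol hfix hlead
    have hG' : Good k hF := by
      rcases hG with h | ⟨h1, h2⟩
      · exact h
      · exact good_of_centre hF h2
    obtain ⟨a₀, ha₀, hlead⟩ := hlead
    have hPA : Q17.Res.IsPA A σ F l := by
      refine ⟨hσ.zero, hσ.add, fun d b hb => ?_⟩
      obtain ⟨P, h1, h2⟩ := hpol d b hb
      exact ⟨P, h1, fun a => (h2 a).symm⟩
    obtain ⟨h1, h2⟩ := Q17.Res.good_inv hPA hF hl a₀ ha₀ hlead hp hpk hG' hne hfix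
    have heq : invariants σ = Q17.Res.iv σ ⊤ := by
      ext b
      exact ⟨fun h g _ => h g, fun h g => h g trivial⟩
    rw [heq]
    exact resolvable hF h1 h2
  · intro n w hw σ hσ f hσf hf g hg hfg hg0 hfix
    have hA' : ∃ a : A, a ≠ 0 := by
      by_contra hcon
      push Not at hcon
      apply hA
      rw [eq_bot_iff]
      intro a ha
      rw [AddSubgroup.mem_bot]
      exact congrArg Subtype.val (hcon ⟨a, ha⟩)
    obtain ⟨h1, h2⟩ := Q17.Res.goodA w l hl A σ hσ.zero hσ.add f hσf (fun i j => hf i j) g hg hfg
      hg0 hfix hp hpk hA' hw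
    have heq : invariants σ = Q17.Res.iv σ ⊤ := by
      ext b
      exact ⟨fun h g _ => h g, fun h g => h g trivial⟩
    rw [heq]
    exact resolvable (Pool.Agent.H519R3.RE.isFilt_EI _ w) h1 h2

end Pool.Agent.Results.MP_19ffc6_ag.ScalarGroupActions
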