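import Pool.Agent.Q2.VI.Tlv

/-!
MP_19ffc6_ag: resolution of the quotients of the spaces of matrices by the finite general linear
groups, their parabolic subgroups and their Sylow `p`-subgroups.
-/

set_option autoImplicit false

open AlgebraicGeometry CategoryTheory MvPolynomial Pool.Agent.H920R2
open Pool.Agent.Q2.VI

universe u

namespace Pool.Agent.Results.MP_19ffc6_ag.VectorInvariants

section

variable {k B : Type u} [Field k] [CommRing B] [Algebra k B]

/-- The structure morphism of the spectrum of a subalgebra. -/
noncomputable def str (C : Subalgebra k B) :
    Spec (CommRingCat.of C) ⟶ Spec (CommRingCat.of k) :=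
  Spec.map (CommRingCat.ofHom (algebraMap k C))

/-- The spectrum of the subalgebra `C` is a variety and has a resolution of singularities: there
are an integral scheme `Y`, smooth over `k`, and a proper morphism from `Y` to the spectrum which
is an isomorphism over a dense open subset. -/
def IsResolvable (C : Subalgebra k B) : Prop :=
  IsVariety (str C) ∧
  ∃ (Y : Scheme.{u}) (π : Y ⟶ Spec (CommRingCat.of C)),
    AlgebraicGeometry.IsIntegral Y ∧ AlgebraicGeometry.IsProper π ∧
    AlgebraicGeometry.Smooth (π ≫ str C) ∧
    ∃ U : (Spec (CommRingCat.of C)).Opens, Dense (U : Set (Spec (CommRingCat.of C))) ∧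
      IsIso (π ∣_ U)

end

section

variable {F : Type} {k : Type u} [Field F] [Field k] [Algebra F k] {r m : ℕ}

/-- The matrix `g` belongs to the group `G (lv, d)`: it is invertible, the entry `g i j` is zero
if the level of `i` is less than the level of `j`, and if `i` is the only index of its level, then
the entry `g i i` is a `d i`-th root of unity. -/
structure InGroup (lv d : Fin r → ℕ) (g : Matrix (Fin r) (Fin r) F) : Prop where
  invertible : g.det ≠ 0
  triangular : ∀ i j, lv i < lv j → g i j = 0
  root : ∀ i, (∀ j, lv j = lv i → j = i) → g i i ^ d i = 1

/-- The substitution `X i j ↦ ∑ l, g i l * X l j` of the polynomial ring in the entries of an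
`r × m`-matrix, that is the multiplication of the matrix by `g` from the left. -/
noncomputable def substitution (k : Type u) [Field k] [Algebra F k] (m : ℕ)
    (g : Matrix (Fin r) (Fin r) F) :
    MvPolynomial (Fin r × Fin m) k →ₐ[k] MvPolynomial (Fin r × Fin m) k :=
  aeval fun w => ∑ l, C (algebraMap F k (g w.1 l)) * X (l, w.2)

/-- The polynomials in the entries of an `r × m`-matrix which are invariant under the group
`G (lv, d)` of matrices over `F`. -/
noncomputable def invariants (F : Type) [Field F] (k : Type u) [Field k] [Algebra F k] (m : ℕ)
    (lv d : Fin r → ℕ) : Subalgebra k (MvPolynomial (Fin r × Fin m) k) where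
  carrier := {f | ∀ g : Matrix (Fin r) (Fin r) F, InGroup lv d g → substitution k m g f = f}
  mul_mem' := fun hx hy g hg => by rw [map_mul, hx g hg, hy g hg]
  add_mem' := fun hx hy g hg => by rw [map_add, hx g hg, hy g hg]
  algebraMap_mem' := fun c g _ => AlgHom.commutes _ c

end

/-- Let `F` be a finite field and `k` a field which contains `F`. Let `m > 0`, let `r` and the
functions `lv, d : {1, …, r} → ℕ` be arbitrary, and let `G = G (lv, d)` be the group of the
invertible `r × r`-matrices `g` over `F` with `g i j = 0` for `lv i < lv j` and such that the entry
`g i i` is a `d i`-th root of unity if `i` is the only index of its level. The quotient of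
the space of `r × m`-matrices over `k` by `G`, acting by left multiplication, that is the quotient
of the direct sum of `m` copies of the natural representation of `G`, is a variety and has a
resolution of singularities.

For constant `lv` and `d = 0` the group `G` is the general linear group `GL_r (F)`, for arbitrary
`lv` and `d = 0` it is (up to conjugacy) an arbitrary parabolic subgroup of `GL_r (F)`, in
particular a Borel subgroup if `lv` is injective, and for injective `lv` and `d = 1` it is a maximal
unipotent subgroup, that is a Sylow `p`-subgroup of `GL_r (F)`. -/
theorem result (F : Type) [Field F] [Fintype F] (k : Type u) [Field k] [Algebra F k] (r m : ℕ)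
    (_ : 0 < m) (lv d : Fin r → ℕ) : IsResolvable (invariants F k m lv d) := by
  have : NeZero m := ⟨by omega⟩
  refine resolvable_lv (F := F) lv d _ fun f => ?_
  constructor
  · intro h g hg
    exact h g ⟨hg.det, hg.low, hg.one⟩
  · intro h g hg
    exact h g ⟨hg.invertible, hg.triangular, hg.root⟩

end Pool.Agent.Results.MP_19ffc6_ag.VectorInvariants
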